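import Pool.Agent.H751R2.LHY.Defs

/-! Task T2: combinatorics of the pair amplitudes. -/

open MeasureTheory UnitAddTorus
open scoped ComplexConjugate ENNReal

namespace Pool.Agent.H751R2.LHY

noncomputable section

theorem t2_sum_update {N : ℕ} {β : Type*} [AddCommMonoid β] (B : Finset Mom) (i : Fin N)
    {p q : Mom} (hp : p ∈ B) (hq : q ∈ B) (g : (Fin N → Mom) → β) :
    ∑ m ∈ (Fintype.piFinset (fun _ : Fin N => B)).filter (fun m => m i = p), g m =
      ∑ M ∈ (Fintype.piFinset (fun _ : Fin N => B)).filter (fun M => M i = q),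
        g (Function.update M i p) := by
  classical
  refine Finset.sum_nbij' (fun m => Function.update m i q) (fun M => Function.update M i p)
    ?_ ?_ ?_ ?_ ?_
  · intro m hm
    rw [Finset.mem_filter, Fintype.mem_piFinset] at hm ⊢
    refine ⟨fun l => ?_, Function.update_self _ _ _⟩
    by_cases hl : l = i
    · subst hl; rw [Function.update_self]; exact hq
    · rw [Function.update_of_ne hl]; exact hm.1 l
  · intro m hm
    rw [Finset.mem_filter, Fintype.mem_piFinset] at hm ⊢
    refine ⟨fun l => ?_, Function.update_self _ _ _⟩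
    by_cases hl : l = i
    · subst hl; rw [Function.update_self]; exact hp
    · rw [Function.update_of_ne hl]; exact hm.1 l
  · intro m hm
    rw [Finset.mem_filter] at hm
    rw [Function.update_idem, ← hm.2, Function.update_eq_self]
  · intro m hm
    rw [Finset.mem_filter] at hm
    rw [Function.update_idem, ← hm.2, Function.update_eq_self]
  · intro m hm
    rw [Finset.mem_filter] at hm
    rw [Function.update_idem, ← hm.2, Function.update_eq_self]

theorem t2_norm_sum_sq {ι : Type*} (s : Finset ι) (f : ι → ℂ) :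
    ‖∑ i ∈ s, f i‖ ^ 2 ≤ (s.card : ℝ) * ∑ i ∈ s, ‖f i‖ ^ 2 := by
  have h1 : ‖∑ i ∈ s, f i‖ ≤ ∑ i ∈ s, ‖f i‖ := norm_sum_le _ _
  have h2 : (∑ i ∈ s, ‖f i‖) ^ 2 ≤ (s.card : ℝ) * ∑ i ∈ s, ‖f i‖ ^ 2 := sq_sum_le_card_mul_sum_sq
  have h3 : ‖∑ i ∈ s, f i‖ ^ 2 ≤ (∑ i ∈ s, ‖f i‖) ^ 2 :=
    pow_le_pow_left₀ (norm_nonneg _) h1 2
  exact h3.trans h2

theorem t2_cs {ι : Type*} (s : Finset ι) (f g : ι → ℂ) :
    ‖∑ i ∈ s, f i * g i‖ ^ 2 ≤ (∑ i ∈ s, ‖f i‖ ^ 2) * ∑ i ∈ s, ‖g i‖ ^ 2 := by
  have h1 : ‖∑ i ∈ s, f i * g i‖ ≤ ∑ i ∈ s, ‖f i‖ * ‖g i‖ := by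
    refine (norm_sum_le _ _).trans (le_of_eq ?_)
    exact Finset.sum_congr rfl fun i _ => norm_mul _ _
  have h2 : (∑ i ∈ s, ‖f i‖ * ‖g i‖) ^ 2 ≤ (∑ i ∈ s, ‖f i‖ ^ 2) * ∑ i ∈ s, ‖g i‖ ^ 2 :=
    Finset.sum_mul_sq_le_sq_mul_sq s _ _
  exact (pow_le_pow_left₀ (norm_nonneg _) h1 2).trans h2

theorem t2_pairS_eq {N : ℕ} (B : Finset Mom) (h0 : (0 : Mom) ∈ B) (n : Mom) (hn : n ∈ B)
    (hne : n ≠ 0) (a : (Fin N → Mom) → ℂ) :
    pairS B a n = ∑ m ∈ Fintype.piFinset (fun _ : Fin N => B),
      (∑ i ∈ Finset.univ.filter (fun i => m i = n), conj (a (Function.update m i 0))) *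
      (∑ j ∈ Finset.univ.filter (fun j => m j = 0), a (Function.update m j (-n))) := by
  classical
  unfold pairS
  have h1 : ∀ i : Fin N, ∀ j ∈ Finset.univ.erase i,
      ∑ M ∈ (Fintype.piFinset (fun _ : Fin N => B)).filter (fun M => M i = 0 ∧ M j = 0),
        conj (a M) * a (Function.update (Function.update M i n) j (-n)) =
      ∑ m ∈ (Fintype.piFinset (fun _ : Fin N => B)).filter (fun m => m i = n),
        if m j = 0 then conj (a (Function.update m i 0)) * a (Function.update m j (-n)) else 0 := by
    intro i j hj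
    have hji : j ≠ i := Finset.ne_of_mem_erase hj
    rw [← Finset.filter_filter, Finset.sum_filter,
      t2_sum_update B i h0 hn (fun M => if M j = 0 then
        conj (a M) * a (Function.update (Function.update M i n) j (-n)) else 0)]
    apply Finset.sum_congr rfl
    intro m hm
    rw [Finset.mem_filter] at hm
    rw [Function.update_of_ne hji, Function.update_idem, ← hm.2, Function.update_eq_self]
  rw [Finset.sum_congr rfl fun i _ => Finset.sum_congr rfl (h1 i)]
  have h2 : ∀ i : Fin N, ∑ j ∈ Finset.univ.erase i,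
      ∑ m ∈ (Fintype.piFinset (fun _ : Fin N => B)).filter (fun m => m i = n),
        (if m j = 0 then conj (a (Function.update m i 0)) * a (Function.update m j (-n)) else 0) =
      ∑ m ∈ Fintype.piFinset (fun _ : Fin N => B), if m i = n then
        conj (a (Function.update m i 0)) *
          ∑ j ∈ Finset.univ.filter (fun j => m j = 0), a (Function.update m j (-n)) else 0 := by
    intro i
    rw [Finset.sum_comm, Finset.sum_filter]
    apply Finset.sum_congr rfl
    intro m _
    by_cases hmi : m i = n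
    · rw [if_pos hmi, if_pos hmi, Finset.mul_sum, Finset.sum_filter]
      have hmi0 : ¬ m i = 0 := by rw [hmi]; exact hne
      rw [← Finset.add_sum_erase Finset.univ _ (Finset.mem_univ i), if_neg hmi0, zero_add]
    · rw [if_neg hmi, if_neg hmi]
  rw [Finset.sum_congr rfl fun i _ => h2 i, Finset.sum_comm]
  apply Finset.sum_congr rfl
  intro m _
  rw [← Finset.sum_filter, Finset.sum_mul]

theorem pairS_le {N : ℕ} (B : Finset Mom) (h0 : (0 : Mom) ∈ B) (n : Mom) (hn : n ∈ B)
    (hn' : -n ∈ B) (hne : n ≠ 0) (a : (Fin N → Mom) → ℂ) :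
    ‖pairS B a n‖ ^ 2 ≤ (N : ℝ) ^ 2 * (occ B a (-n) * (occ B a n + nrm B a)) := by
  classical
  rw [t2_pairS_eq B h0 n hn hne a]
  refine (t2_cs _ _ _).trans ?_
  -- bound of R
  have hR : ∑ m ∈ Fintype.piFinset (fun _ : Fin N => B),
      ‖∑ j ∈ Finset.univ.filter (fun j => m j = 0), a (Function.update m j (-n))‖ ^ 2 ≤
      (N : ℝ) * occ B a (-n) := by
    have h1 : ∀ m ∈ Fintype.piFinset (fun _ : Fin N => B),
        ‖∑ j ∈ Finset.univ.filter (fun j => m j = 0), a (Function.update m j (-n))‖ ^ 2 ≤
        (N : ℝ) * ∑ j : Fin N, if m j = 0 then ‖a (Function.update m j (-n))‖ ^ 2 else 0 := by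
      intro m _
      refine (t2_norm_sum_sq _ _).trans ?_
      rw [← Finset.sum_filter]
      apply mul_le_mul_of_nonneg_right
      · have : (Finset.univ.filter (fun j : Fin N => m j = 0)).card ≤ N := by
          refine (Finset.card_filter_le _ _).trans (le_of_eq ?_)
          rw [Finset.card_univ, Fintype.card_fin]
        exact_mod_cast this
      · exact Finset.sum_nonneg fun _ _ => sq_nonneg _
    refine (Finset.sum_le_sum h1).trans (le_of_eq ?_)
    rw [← Finset.mul_sum, Finset.sum_comm]
    congr 1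
    have h2 : ∀ j : Fin N, ∑ m ∈ Fintype.piFinset (fun _ : Fin N => B),
        (if m j = 0 then ‖a (Function.update m j (-n))‖ ^ 2 else 0) =
        ∑ M ∈ Fintype.piFinset (fun _ : Fin N => B), if M j = -n then ‖a M‖ ^ 2 else 0 := by
      intro j
      rw [← Finset.sum_filter, ← Finset.sum_filter,
        t2_sum_update B j hn' h0 (fun M => ‖a M‖ ^ 2)]
    rw [Finset.sum_congr rfl fun j _ => h2 j, Finset.sum_comm]
    unfold occ
    apply Finset.sum_congr rfl
    intro M _
    rw [← Finset.sum_filter, Finset.sum_const, nsmul_eq_mul]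
  -- bound of P
  have hP : ∑ m ∈ Fintype.piFinset (fun _ : Fin N => B),
      ‖∑ i ∈ Finset.univ.filter (fun i => m i = n), conj (a (Function.update m i 0))‖ ^ 2 ≤
      (N : ℝ) * (occ B a n + nrm B a) := by
    have h1 : ∀ m ∈ Fintype.piFinset (fun _ : Fin N => B),
        ‖∑ i ∈ Finset.univ.filter (fun i => m i = n), conj (a (Function.update m i 0))‖ ^ 2 ≤
        ∑ i : Fin N, if m i = n then
          ((Finset.univ.filter (fun l => m l = n)).card : ℝ) * ‖a (Function.update m i 0)‖ ^ 2
          else 0 := by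
      intro m _
      refine (t2_norm_sum_sq _ _).trans (le_of_eq ?_)
      rw [← Finset.sum_filter, Finset.mul_sum]
      apply Finset.sum_congr rfl
      intro i _
      rw [RCLike.norm_conj]
    refine (Finset.sum_le_sum h1).trans ?_
    rw [Finset.sum_comm]
    have h2 : ∀ i : Fin N, ∑ m ∈ Fintype.piFinset (fun _ : Fin N => B),
        (if m i = n then ((Finset.univ.filter (fun l => m l = n)).card : ℝ) *
          ‖a (Function.update m i 0)‖ ^ 2 else 0) ≤
        ∑ M ∈ Fintype.piFinset (fun _ : Fin N => B),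
          (((Finset.univ.filter (fun l : Fin N => M l = n)).card : ℝ) + 1) * ‖a M‖ ^ 2 := by
      intro i
      rw [← Finset.sum_filter, t2_sum_update B i hn h0 (fun m =>
        ((Finset.univ.filter (fun l => m l = n)).card : ℝ) * ‖a (Function.update m i 0)‖ ^ 2)]
      refine le_trans ?_ (Finset.sum_le_sum_of_subset_of_nonneg
        (Finset.filter_subset (fun M : Fin N → Mom => M i = 0) _) (fun M _ _ => by positivity))
      · apply Finset.sum_le_sum
        intro M hM
        rw [Finset.mem_filter] at hM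
        rw [Function.update_idem]
        have e : Function.update M i 0 = M := by
          rw [← hM.2, Function.update_eq_self]
        rw [e]
        apply mul_le_mul_of_nonneg_right _ (sq_nonneg _)
        have hsub : Finset.univ.filter (fun l : Fin N => Function.update M i n l = n) ⊆
            insert i (Finset.univ.filter (fun l : Fin N => M l = n)) := by
          intro l hl
          rw [Finset.mem_filter] at hl
          rw [Finset.mem_insert, Finset.mem_filter]
          by_cases hli : l = i
          · exact Or.inl hli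
          · right
            rw [Function.update_of_ne hli] at hl
            exact hl
        have := (Finset.card_le_card hsub).trans (Finset.card_insert_le _ _)
        exact_mod_cast this
    refine (Finset.sum_le_sum fun i _ => h2 i).trans (le_of_eq ?_)
    rw [Finset.sum_const, Finset.card_univ, Fintype.card_fin, nsmul_eq_mul]
    congr 1
    unfold occ nrm
    rw [← Finset.sum_add_distrib]
    apply Finset.sum_congr rfl
    intro M _
    ring
  have hocc : 0 ≤ occ B a (-n) := by
    unfold occ
    exact Finset.sum_nonneg fun _ _ => by positivity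
  calc _ ≤ ((N : ℝ) * (occ B a n + nrm B a)) * ((N : ℝ) * occ B a (-n)) := by
        apply mul_le_mul hP hR
        · exact Finset.sum_nonneg fun _ _ => sq_nonneg _
        · exact (Finset.sum_nonneg fun _ _ => sq_nonneg _).trans hP
    _ = _ := by ring

theorem pairS_zero_ge {N : ℕ} (B : Finset Mom) (a : (Fin N → Mom) → ℂ) :
    (N : ℝ) * (N - 1) * nrm B a - 2 * (N - 1) * ∑ n ∈ B.erase 0, occ B a n ≤
      (pairS B a 0).re := by
  classical
  have hpair : (pairS B a 0).re = ∑ M ∈ Fintype.piFinset (fun _ : Fin N => B),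
      (((Finset.univ.filter (fun i => M i = 0)).card : ℝ) *
        (((Finset.univ.filter (fun i => M i = 0)).card : ℝ) - 1)) * ‖a M‖ ^ 2 := by
    unfold pairS
    have h1 : ∀ i : Fin N, ∀ j ∈ Finset.univ.erase i,
        ∑ M ∈ (Fintype.piFinset (fun _ : Fin N => B)).filter (fun M => M i = 0 ∧ M j = 0),
          conj (a M) * a (Function.update (Function.update M i 0) j (-0)) =
        ∑ M ∈ Fintype.piFinset (fun _ : Fin N => B),
          if M i = 0 then (if M j = 0 then ((‖a M‖ ^ 2 : ℝ) : ℂ) else 0) else 0 := by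
      intro i j _
      rw [Finset.sum_filter]
      apply Finset.sum_congr rfl
      intro M _
      by_cases hi : M i = 0
      · by_cases hj : M j = 0
        · rw [if_pos ⟨hi, hj⟩, if_pos hi, if_pos hj]
          have e1 : Function.update M i 0 = M := by rw [← hi, Function.update_eq_self]
          have e2 : Function.update M j (-0) = M := by
            rw [neg_zero, ← hj, Function.update_eq_self]
          rw [e1, e2, mul_comm, Complex.mul_conj, Complex.normSq_eq_norm_sq]
        · rw [if_neg (fun h => hj h.2), if_pos hi, if_neg hj]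
      · rw [if_neg (fun h => hi h.1), if_neg hi]
    rw [Finset.sum_congr rfl fun i _ => Finset.sum_congr rfl (h1 i)]
    have h2 : ∀ i : Fin N, ∑ j ∈ Finset.univ.erase i, ∑ M ∈ Fintype.piFinset (fun _ : Fin N => B),
        (if M i = 0 then (if M j = 0 then ((‖a M‖ ^ 2 : ℝ) : ℂ) else 0) else 0) =
        ∑ M ∈ Fintype.piFinset (fun _ : Fin N => B), if M i = 0 then
          ((((Finset.univ.filter (fun j : Fin N => M j = 0)).card : ℝ) - 1 : ℝ) : ℂ) *
            ((‖a M‖ ^ 2 : ℝ) : ℂ) else 0 := by
      intro i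
      rw [Finset.sum_comm]
      apply Finset.sum_congr rfl
      intro M _
      by_cases hi : M i = 0
      · simp only [if_pos hi]
        have h3 := Finset.add_sum_erase Finset.univ
          (fun j : Fin N => if M j = 0 then ((‖a M‖ ^ 2 : ℝ) : ℂ) else 0) (Finset.mem_univ i)
        simp only [if_pos hi] at h3
        rw [eq_sub_of_add_eq' h3, ← Finset.sum_filter, Finset.sum_const, nsmul_eq_mul]
        push_cast
        ring
      · simp only [if_neg hi, Finset.sum_const_zero]
    rw [Finset.sum_congr rfl fun i _ => h2 i, Finset.sum_comm, Complex.re_sum]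
    apply Finset.sum_congr rfl
    intro M _
    rw [← Finset.sum_filter, Finset.sum_const, nsmul_eq_mul, ← Complex.ofReal_mul,
      ← Complex.ofReal_natCast, ← Complex.ofReal_mul, Complex.ofReal_re]
    ring
  have hocc : ∑ n ∈ B.erase 0, occ B a n = ∑ M ∈ Fintype.piFinset (fun _ : Fin N => B),
      ((N : ℝ) - ((Finset.univ.filter (fun i => M i = 0)).card : ℝ)) * ‖a M‖ ^ 2 := by
    unfold occ
    rw [Finset.sum_comm]
    apply Finset.sum_congr rfl
    intro M hM
    rw [← Finset.sum_mul]
    congr 1
    rw [Fintype.mem_piFinset] at hM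
    have h1 : ∑ n ∈ B, ((Finset.univ.filter (fun i => M i = n)).card : ℝ) = N := by
      rw [← Nat.cast_sum, ← Finset.card_eq_sum_card_fiberwise (fun i _ => hM i),
        Finset.card_univ, Fintype.card_fin]
    by_cases h0 : (0 : Mom) ∈ B
    · rw [← h1, ← Finset.add_sum_erase B _ h0]; ring
    · rw [Finset.erase_eq_of_notMem h0, h1]
      have : Finset.univ.filter (fun i : Fin N => M i = 0) = ∅ := by
        rw [Finset.filter_eq_empty_iff]
        intro i _ hi
        exact h0 (hi ▸ hM i)
      rw [this]; simp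
  rw [hpair, hocc]
  unfold nrm
  rw [Finset.mul_sum, Finset.mul_sum, ← Finset.sum_sub_distrib]
  apply Finset.sum_le_sum
  intro M _
  rw [← mul_assoc, ← sub_mul]
  apply mul_le_mul_of_nonneg_right _ (sq_nonneg _)
  set k := (Finset.univ.filter (fun i : Fin N => M i = 0)).card with hk
  have hkN : k ≤ N := by
    rw [hk]
    refine (Finset.card_filter_le _ _).trans (le_of_eq ?_)
    rw [Finset.card_univ, Fintype.card_fin]
  obtain ⟨p, hp⟩ := Nat.exists_eq_add_of_le hkN
  have hpN : (N : ℝ) = k + p := by exact_mod_cast hp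
  have hpp : (0 : ℝ) ≤ (p : ℝ) * (p - 1) := by
    rcases Nat.eq_zero_or_pos p with h | h
    · rw [h]; simp
    · have : (1 : ℝ) ≤ p := by exact_mod_cast h
      exact mul_nonneg (by linarith) (by linarith)
  rw [hpN]
  nlinarith

end

end Pool.Agent.H751R2.LHY
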