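import Pool.Agent.H751R2.LHY.Defs

/-! Task T10: lattice sums in `ℤ³`. -/

open MeasureTheory UnitAddTorus
open scoped ComplexConjugate ENNReal

namespace Pool.Agent.H751R2.LHY

noncomputable section

/-- sup norm of a momentum -/
def t10_sup (n : Mom) : ℕ := Finset.univ.sup (fun a => (n a).natAbs)

theorem t10_mem_box {n : Mom} {R : ℕ} : n ∈ boxM R ↔ t10_sup n ≤ R := by
  unfold boxM t10_sup
  rw [Fintype.mem_piFinset, Finset.sup_le_iff]
  constructor
  · intro h a _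
    have := h a
    rw [Finset.mem_Icc] at this
    omega
  · intro h a
    have := h a (Finset.mem_univ a)
    rw [Finset.mem_Icc]
    omega

theorem t10_card_box (R : ℕ) : (boxM R).card = (2 * R + 1) ^ 3 := by
  unfold boxM
  rw [Fintype.card_piFinset, Finset.prod_const, Int.card_Icc, Finset.card_univ, Fintype.card_fin]
  congr 1
  omega

theorem t10_sq_ge (n : Mom) : ((t10_sup n : ℕ) : ℝ) ^ 2 ≤ sq n := by
  have h1 : ∃ a ∈ (Finset.univ : Finset (Fin 3)), t10_sup n = (n a).natAbs := by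
    unfold t10_sup
    exact Finset.exists_mem_eq_sup Finset.univ ⟨0, Finset.mem_univ _⟩ _
  obtain ⟨a, _, ha⟩ := h1
  rw [ha]
  have h2 : (((n a).natAbs : ℕ) : ℝ) ^ 2 = (n a : ℝ) ^ 2 := by
    rw [Nat.cast_natAbs, Int.cast_abs, sq_abs]
  rw [h2]
  unfold sq
  exact Finset.single_le_sum (f := fun a => (n a : ℝ) ^ 2) (fun _ _ => sq_nonneg _)
    (Finset.mem_univ a)

theorem t10_sq_le (n : Mom) : sq n ≤ 3 * ((t10_sup n : ℕ) : ℝ) ^ 2 := by
  unfold sq
  have h1 : ∀ a ∈ (Finset.univ : Finset (Fin 3)), (n a : ℝ) ^ 2 ≤ ((t10_sup n : ℕ) : ℝ) ^ 2 := by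
    intro a ha
    have h2 : (n a).natAbs ≤ t10_sup n := by
      unfold t10_sup
      exact Finset.le_sup (f := fun a => (n a).natAbs) ha
    have h3 : (n a : ℝ) ^ 2 = (((n a).natAbs : ℕ) : ℝ) ^ 2 := by
      rw [Nat.cast_natAbs, Int.cast_abs, sq_abs]
    rw [h3]
    exact pow_le_pow_left₀ (Nat.cast_nonneg _) (by exact_mod_cast h2) 2
  refine (Finset.sum_le_sum h1).trans (le_of_eq ?_)
  rw [Finset.sum_const, Finset.card_univ, Fintype.card_fin, nsmul_eq_mul]
  norm_num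

/-- shells -/
theorem t10_card_shell (F : Finset Mom) (j : ℕ) (hj : 1 ≤ j) :
    ((F.filter (fun n => t10_sup n = j)).card : ℝ) ≤ 26 * (j : ℝ) ^ 2 := by
  have h1 : F.filter (fun n => t10_sup n = j) ⊆ boxM j \ boxM (j - 1) := by
    intro n hn
    rw [Finset.mem_filter] at hn
    rw [Finset.mem_sdiff, t10_mem_box, t10_mem_box]
    omega
  have h2 : boxM (j - 1) ⊆ boxM j := by
    intro n hn
    rw [t10_mem_box] at hn ⊢
    omega
  have h3 := Finset.card_le_card h1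
  rw [Finset.card_sdiff_of_subset h2, t10_card_box, t10_card_box] at h3
  obtain ⟨i, rfl⟩ : ∃ i, j = i + 1 := ⟨j - 1, by omega⟩
  rw [Nat.add_sub_cancel] at h3
  have h4 : (2 * (i + 1) + 1) ^ 3 - (2 * i + 1) ^ 3 ≤ 26 * (i + 1) ^ 2 := by
    rw [Nat.sub_le_iff_le_add]
    nlinarith [Nat.zero_le i, sq_nonneg (i : ℤ)]
  have h5 := h3.trans h4
  have h6 : (((F.filter (fun n => t10_sup n = i + 1)).card : ℕ) : ℝ) ≤
      ((26 * (i + 1) ^ 2 : ℕ) : ℝ) := by exact_mod_cast h5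
  push_cast at h6 ⊢
  exact h6

theorem low_sum (R : ℕ) (F : Finset Mom) (hF : F ⊆ (boxM R).erase 0) :
    ∑ n ∈ F, 1 / sq n ≤ 26 * R := by
  classical
  have hmaps : ∀ n ∈ F, t10_sup n ∈ Finset.Icc 1 R := by
    intro n hn
    have h1 := hF hn
    rw [Finset.mem_erase, t10_mem_box] at h1
    rw [Finset.mem_Icc]
    refine ⟨?_, h1.2⟩
    by_contra h
    apply h1.1
    have h2 : t10_sup n = 0 := by omega
    have h3 : sq n ≤ 0 := by
      have := t10_sq_le n
      rw [h2] at this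
      simpa using this
    funext a
    have h4 : (n a : ℝ) ^ 2 ≤ 0 := by
      refine le_trans ?_ h3
      unfold sq
      exact Finset.single_le_sum (f := fun a => (n a : ℝ) ^ 2) (fun _ _ => sq_nonneg _)
        (Finset.mem_univ a)
    have h5 : (n a : ℝ) = 0 := by nlinarith [sq_nonneg (n a : ℝ)]
    exact_mod_cast h5
  rw [← Finset.sum_fiberwise_of_maps_to hmaps]
  have h1 : ∀ j ∈ Finset.Icc 1 R, ∑ n ∈ F.filter (fun n => t10_sup n = j), 1 / sq n ≤ 26 := by
    intro j hj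
    rw [Finset.mem_Icc] at hj
    have hj0 : (0 : ℝ) < (j : ℝ) ^ 2 := by
      have : (0 : ℝ) < j := by exact_mod_cast hj.1
      positivity
    have h2 : ∀ n ∈ F.filter (fun n => t10_sup n = j), 1 / sq n ≤ 1 / (j : ℝ) ^ 2 := by
      intro n hn
      rw [Finset.mem_filter] at hn
      apply one_div_le_one_div_of_le hj0
      have := t10_sq_ge n
      rw [hn.2] at this
      exact this
    refine (Finset.sum_le_card_nsmul _ _ _ h2).trans ?_
    rw [nsmul_eq_mul, mul_one_div, div_le_iff₀ hj0]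
    exact t10_card_shell F j hj.1
  refine (Finset.sum_le_card_nsmul _ _ _ h1).trans (le_of_eq ?_)
  rw [Nat.card_Icc, nsmul_eq_mul]
  push_cast
  ring

theorem t10_tail_sum_sq (J : ℕ) (hJ : 1 ≤ J) (M : ℕ) :
    ∑ j ∈ Finset.Ico J M, 1 / ((j : ℝ)) ^ 2 ≤ 2 / (J : ℝ) := by
  have hJ0 : (0 : ℝ) < J := by exact_mod_cast hJ
  rcases le_or_gt M J with h | h
  · rw [Finset.Ico_eq_empty (by omega), Finset.sum_empty]; positivity
  -- 1/j^2 ≤ 1/(j-1) - 1/j for j ≥ 2; use telescoping 2/(j) - 2/(j+1) ≥ 1/j^2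
  have h1 : ∀ M, J ≤ M → ∑ j ∈ Finset.Ico J M, 1 / ((j : ℝ)) ^ 2 ≤ 2 / (J : ℝ) - 2 / (M : ℝ) := by
    intro M hM
    induction M, hM using Nat.le_induction with
    | base => simp
    | succ m hm ih =>
      rw [Finset.sum_Ico_succ_top hm]
      have hm0 : (1 : ℝ) ≤ m := by exact_mod_cast hJ.trans hm
      have h2 : 1 / (m : ℝ) ^ 2 ≤ 2 / (m : ℝ) - 2 / ((m + 1 : ℕ) : ℝ) := by
        push_cast
        rw [div_sub_div _ _ (by positivity) (by positivity), div_le_div_iff₀ (by positivity)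
          (by positivity)]
        nlinarith
      linarith
  refine (h1 M h.le).trans ?_
  have : 0 ≤ 2 / (M : ℝ) := by positivity
  linarith

theorem tail_sum : ∃ C : ℝ, 0 < C ∧ ∀ (t : ℝ), 1 ≤ t → ∀ F : Finset Mom,
    (∀ n ∈ F, t ^ 2 < sq n) → ∑ n ∈ F, 1 / sq n ^ 2 ≤ C / t := by
  classical
  refine ⟨104, by norm_num, ?_⟩
  intro t ht F hF
  -- all sup norms are > t/2
  set J : ℕ := ⌊t / 2⌋₊ + 1 with hJ
  have hJ1 : 1 ≤ J := by omega
  have hJt : t / 2 < J := by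
    rw [hJ]; push_cast; exact Nat.lt_floor_add_one _
  set M : ℕ := F.sup t10_sup + 1 with hM
  have hmaps : ∀ n ∈ F, t10_sup n ∈ Finset.Ico J M := by
    intro n hn
    rw [Finset.mem_Ico]
    constructor
    · have h1 := hF n hn
      have h2 := t10_sq_le n
      have h3 : t / 2 < t10_sup n := by
        by_contra hlt
        push Not at hlt
        have h4 : ((t10_sup n : ℕ) : ℝ) ^ 2 ≤ (t / 2) ^ 2 :=
          pow_le_pow_left₀ (Nat.cast_nonneg _) hlt 2
        nlinarith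
      rw [hJ]
      have : ⌊t / 2⌋₊ < t10_sup n := (Nat.floor_lt (by linarith)).mpr h3
      omega
    · rw [hM]
      have := Finset.le_sup (f := t10_sup) hn
      omega
  rw [← Finset.sum_fiberwise_of_maps_to hmaps]
  have h1 : ∀ j ∈ Finset.Ico J M,
      ∑ n ∈ F.filter (fun n => t10_sup n = j), 1 / sq n ^ 2 ≤ 26 * (1 / (j : ℝ) ^ 2) := by
    intro j hj
    rw [Finset.mem_Ico] at hj
    have hjpos : (0 : ℝ) < j := by
      have : 1 ≤ j := hJ1.trans hj.1
      exact_mod_cast this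
    have hj0 : (0 : ℝ) < ((j : ℝ) ^ 2) ^ 2 := by positivity
    have h2 : ∀ n ∈ F.filter (fun n => t10_sup n = j), 1 / sq n ^ 2 ≤ 1 / ((j : ℝ) ^ 2) ^ 2 := by
      intro n hn
      rw [Finset.mem_filter] at hn
      apply one_div_le_one_div_of_le hj0
      apply pow_le_pow_left₀ (by positivity)
      have := t10_sq_ge n
      rw [hn.2] at this
      exact this
    refine (Finset.sum_le_card_nsmul _ _ _ h2).trans ?_
    rw [nsmul_eq_mul]
    have h3 := t10_card_shell F j (hJ1.trans hj.1)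
    calc _ ≤ (26 * (j : ℝ) ^ 2) * (1 / ((j : ℝ) ^ 2) ^ 2) :=
          mul_le_mul_of_nonneg_right h3 (by positivity)
      _ = 26 * (1 / (j : ℝ) ^ 2) := by field_simp
  refine (Finset.sum_le_sum h1).trans ?_
  rw [← Finset.mul_sum]
  have h4 := t10_tail_sum_sq J hJ1 M
  calc 26 * ∑ j ∈ Finset.Ico J M, 1 / ((j : ℝ)) ^ 2 ≤ 26 * (2 / (J : ℝ)) :=
        mul_le_mul_of_nonneg_left h4 (by norm_num)
    _ ≤ 26 * (2 / (t / 2)) := by
        apply mul_le_mul_of_nonneg_left _ (by norm_num)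
        apply div_le_div_of_nonneg_left (by norm_num) (by linarith) hJt.le
    _ = 104 / t := by
        have : t ≠ 0 := by linarith
        field_simp
        norm_num

theorem count_ge (t : ℝ) (ht : 2 ≤ t) (R : ℕ) (hR : t ≤ R) :
    t ^ 3 / 27 ≤ ((((boxM R).erase 0).filter (fun n => sq n ≤ t ^ 2)).card : ℝ) := by
  classical
  -- cube of half side k = ⌊t/√3⌋; here use t * 4/7 < t/√3
  set k : ℕ := ⌊t * (4 / 7)⌋₊ with hk
  have hk1 : (k : ℝ) ≤ t * (4 / 7) := Nat.floor_le (by linarith)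
  have hk2 : t * (4 / 7) < k + 1 := Nat.lt_floor_add_one _
  have hsub : (boxM k).erase 0 ⊆ ((boxM R).erase 0).filter (fun n => sq n ≤ t ^ 2) := by
    intro n hn
    rw [Finset.mem_erase, t10_mem_box] at hn
    rw [Finset.mem_filter, Finset.mem_erase, t10_mem_box]
    have hkR : k ≤ R := by
      have : (k : ℝ) ≤ R := by linarith
      exact_mod_cast this
    refine ⟨⟨hn.1, hn.2.trans hkR⟩, ?_⟩
    have h1 := t10_sq_le n
    have h2 : ((t10_sup n : ℕ) : ℝ) ≤ t * (4 / 7) := by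
      have : ((t10_sup n : ℕ) : ℝ) ≤ k := by exact_mod_cast hn.2
      linarith
    have h3 : ((t10_sup n : ℕ) : ℝ) ^ 2 ≤ (t * (4 / 7)) ^ 2 :=
      pow_le_pow_left₀ (Nat.cast_nonneg _) h2 2
    nlinarith
  have h1 := Finset.card_le_card hsub
  have h0 : (0 : Mom) ∈ boxM k := by
    rw [t10_mem_box]
    have : t10_sup 0 = 0 := by
      unfold t10_sup; simp
    rw [this]; exact Nat.zero_le _
  rw [Finset.card_erase_of_mem h0, t10_card_box] at h1
  have h2 : ((2 * (k : ℝ) + 1) ^ 3 - 1) ≤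
      ((((boxM R).erase 0).filter (fun n => sq n ≤ t ^ 2)).card : ℝ) := by
    have h3 : (2 * k + 1) ^ 3 ≤
        (((boxM R).erase 0).filter (fun n => sq n ≤ t ^ 2)).card + 1 := by omega
    have h4 : (((2 * k + 1) ^ 3 : ℕ) : ℝ) ≤
        (((((boxM R).erase 0).filter (fun n => sq n ≤ t ^ 2)).card + 1 : ℕ) : ℝ) := by
      exact_mod_cast h3
    push_cast at h4
    linarith
  refine le_trans ?_ h2
  have h5 : t * (8 / 7) - 1 < 2 * (k : ℝ) + 1 := by linarith
  have h6 : t * (9 / 14) ≤ 2 * (k : ℝ) + 1 := by linarith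
  have h7 : (t * (9 / 14)) ^ 3 ≤ (2 * (k : ℝ) + 1) ^ 3 :=
    pow_le_pow_left₀ (by positivity) h6 3
  have h8 : 8 ≤ t ^ 3 := by
    have : (2 : ℝ) ^ 3 ≤ t ^ 3 := pow_le_pow_left₀ (by norm_num) ht 3
    linarith
  nlinarith

end

end Pool.Agent.H751R2.LHY
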