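import Pool.Agent.H751R2.LHY.Defs

/-! Task T5, first half: the one-mode inequality. -/

open MeasureTheory UnitAddTorus
open scoped ComplexConjugate ENNReal

namespace Pool.Agent.H751R2.LHY

noncomputable section

theorem t5_one {A b o o' S : ℝ} (hA : 0 < A) (hb : 0 ≤ b) (ho : 0 ≤ o) (ho' : 0 ≤ o')
    (hS : 0 ≤ S) :
    b * Real.sqrt (o' * (o + S)) ≤
      (A / (1 + (b / A) ^ 2)) * o' + (b ^ 2 / (4 * A) * (1 + (b / A) ^ 2)) * (o + S) := by
  set x := (b / A) ^ 2 with hx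
  have hx0 : 0 ≤ x := sq_nonneg _
  have hx1 : 0 < 1 + x := by linarith
  set P := (A / (1 + x)) * o' with hP
  set Q := (b ^ 2 / (4 * A) * (1 + x)) * (o + S) with hQ
  have hP0 : 0 ≤ P := by positivity
  have hQ0 : 0 ≤ Q := by positivity
  have h1 : b * Real.sqrt (o' * (o + S)) = 2 * Real.sqrt (P * Q) := by
    have h2 : P * Q = (b / 2) ^ 2 * (o' * (o + S)) := by
      rw [hP, hQ]; field_simp; ring
    rw [h2, Real.sqrt_mul (sq_nonneg _), Real.sqrt_sq (by linarith)]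
    ring
  rw [h1, Real.sqrt_mul hP0]
  nlinarith [sq_nonneg (Real.sqrt P - Real.sqrt Q), Real.sq_sqrt hP0, Real.sq_sqrt hQ0]

theorem t5_sum_neg {B0 : Finset Mom} (hB0 : Sym B0) (f : Mom → ℝ) :
    ∑ n ∈ B0, f (-n) = ∑ n ∈ B0, f n := by
  refine Finset.sum_nbij' (fun n => -n) (fun n => -n) ?_ ?_ ?_ ?_ ?_
  · intro n hn; exact hB0.neg n hn
  · intro n hn; exact hB0.neg n hn
  · intro n _; exact neg_neg n
  · intro n _; exact neg_neg n
  · intro n _; rfl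

theorem mode_sum {B0 : Finset Mom} (hB0 : Sym B0) (A b o : Mom → ℝ) (S : ℝ) (hS : 0 ≤ S)
    (hA : ∀ n ∈ B0, 0 < A n) (hAs : ∀ n ∈ B0, A (-n) = A n)
    (hb : ∀ n ∈ B0, 0 ≤ b n) (hbs : ∀ n ∈ B0, b (-n) = b n)
    (hbA : ∀ n ∈ B0, b n ≤ A n / 2) (ho : ∀ n ∈ B0, 0 ≤ o n) :
    -(S * ∑ n ∈ B0, (b n ^ 2 / (4 * A n)) * (1 + (b n / A n) ^ 2)) ≤
      ∑ n ∈ B0, (A n * o n - b n * Real.sqrt (o (-n) * (o n + S))) := by
  have h1 : ∑ n ∈ B0, (A n * o n - ((A n / (1 + (b n / A n) ^ 2)) * o (-n) +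
      (b n ^ 2 / (4 * A n) * (1 + (b n / A n) ^ 2)) * (o n + S))) ≤
      ∑ n ∈ B0, (A n * o n - b n * Real.sqrt (o (-n) * (o n + S))) := by
    apply Finset.sum_le_sum
    intro n hn
    have := t5_one (hA n hn) (hb n hn) (ho n hn) (ho _ (hB0.neg n hn)) hS
    linarith
  refine le_trans ?_ h1
  have h2 : ∑ n ∈ B0, (A n / (1 + (b n / A n) ^ 2)) * o (-n) =
      ∑ n ∈ B0, (A n / (1 + (b n / A n) ^ 2)) * o n := by
    rw [← t5_sum_neg hB0 (fun n => (A n / (1 + (b n / A n) ^ 2)) * o n)]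
    apply Finset.sum_congr rfl
    intro n hn
    simp only [hAs n hn, hbs n hn]
  rw [Finset.sum_sub_distrib, Finset.sum_add_distrib, h2, ← Finset.sum_add_distrib,
    ← Finset.sum_sub_distrib, Finset.mul_sum, ← Finset.sum_neg_distrib]
  apply Finset.sum_le_sum
  intro n hn
  have hAn := hA n hn
  have hon := ho n hn
  set x := (b n / A n) ^ 2 with hx
  have hx0 : 0 ≤ x := sq_nonneg _
  have hx4 : x ≤ 1 / 4 := by
    have h3 : b n / A n ≤ 1 / 2 := by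
      rw [div_le_iff₀ hAn]; linarith [hbA n hn]
    have h4 : 0 ≤ b n / A n := div_nonneg (hb n hn) hAn.le
    rw [hx]; nlinarith
  have hb2 : b n ^ 2 / (4 * A n) = A n * x / 4 := by
    rw [hx]; field_simp
  rw [hb2]
  have h5 : A n / (1 + x) ≤ A n * (1 - x * (1 + x) / 4) := by
    rw [div_le_iff₀ (by linarith)]
    have : A n ≤ A n * ((1 - x * (1 + x) / 4) * (1 + x)) := by
      apply le_mul_of_one_le_right hAn.le
      nlinarith [mul_nonneg hx0 (by linarith : (0 : ℝ) ≤ 1 / 4 - x)]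
    linarith
  have h6 := mul_le_mul_of_nonneg_right h5 hon
  nlinarith

end

end Pool.Agent.H751R2.LHY
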