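import Pool.Agent.H46R2.LHY.Comb
import Pool.Agent.H46R2.LHY.Mode
import Pool.Agent.H464R2.LHY.Scat
import Pool.Agent.H464R2.LHY.PotGe

/-! Task T5, second half: the lower bound (assembly of part A). -/

open MeasureTheory UnitAddTorus
open scoped ComplexConjugate ENNReal

namespace Pool.Agent.H751R2.LHY

noncomputable section

theorem t5_occ_nonneg {N : ℕ} (B : Finset Mom) (a : (Fin N → Mom) → ℂ) (n : Mom) :
    0 ≤ occ B a n := by
  unfold occ
  exact Finset.sum_nonneg fun _ _ => by positivity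

theorem t5_kin {N : ℕ} (B0 : Finset Mom) (h0 : (0 : Mom) ∉ B0) (a : (Fin N → Mom) → ℂ) (q : ℝ) :
    kinF (insert 0 B0) a q = ∑ n ∈ B0, q * sq n * occ (insert 0 B0) a n := by
  classical
  have hsq0 : sq 0 = 0 := by simp [sq]
  unfold kinF occ
  simp_rw [Finset.mul_sum]
  rw [Finset.sum_comm]
  apply Finset.sum_congr rfl
  intro M hM
  rw [Fintype.mem_piFinset] at hM
  have h1 : ∑ i, q * sq (M i) = ∑ n ∈ insert 0 B0,
      ((Finset.univ.filter (fun i => M i = n)).card : ℝ) * (q * sq n) := by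
    rw [← Finset.sum_fiberwise_of_maps_to (s := Finset.univ) (t := insert 0 B0) (g := M)
      (fun i _ => hM i)]
    apply Finset.sum_congr rfl
    intro n _
    rw [← nsmul_eq_mul, ← Finset.sum_const]
    apply Finset.sum_congr rfl
    intro i hi
    rw [(Finset.mem_filter.mp hi).2]
  rw [h1, Finset.sum_insert h0, hsq0, mul_zero, mul_zero, zero_add, Finset.sum_mul]
  apply Finset.sum_congr rfl
  intro n _
  ring

theorem lowerA {N : ℕ} {W : T3 → ℝ} (hW : Pot W) {q μ : ℝ} (hq : 0 < q) (hμ : 0 < μ)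
    {B0 : Finset Mom} (hB0 : Sym B0) {c : Mom → ℝ} (hc : Scat W q μ B0 c)
    (L A : Mom → ℝ) (Γ : ℝ)
    (hΓ : Γ = gh W B0 c 0 + ∑ n ∈ B0, (2 * (q * sq n) + 2 * μ) * c n ^ 2)
    (hA : ∀ n ∈ B0, 0 < A n) (hAs : ∀ n ∈ B0, A (-n) = A n)
    (hAL : ∀ n ∈ B0, A n ≤ q * sq n + L n - Γ * N)
    (hAg : ∀ n ∈ B0, N * |gh W B0 c n| ≤ A n / 2)
    (a : (Fin N → Mom) → ℂ) :
    nrm (insert 0 B0) a * ((1 / 2) * Γ * ((N : ℝ) ^ 2 - N)
      - ∑ n ∈ B0, ((N * |gh W B0 c n|) ^ 2 / (4 * A n)) * (1 + ((N * |gh W B0 c n|) / A n) ^ 2))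
      ≤ kinF (insert 0 B0) a q + potF (insert 0 B0) a W
        + ∑ n ∈ B0, L n * occ (insert 0 B0) a n := by
  classical
  set B := insert 0 B0 with hB
  set S := nrm B a with hS
  have hS0 : 0 ≤ S := by
    rw [hS]; unfold nrm
    exact Finset.sum_nonneg fun _ _ => sq_nonneg _
  set o : Mom → ℝ := fun n => occ B a n with ho
  have ho0 : ∀ n, 0 ≤ o n := fun n => t5_occ_nonneg B a n
  set b : Mom → ℝ := fun n => N * |gh W B0 c n| with hb
  have hb0 : ∀ n, 0 ≤ b n := fun n => by positivity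
  set Sg := ∑ n ∈ B0, (2 * (q * sq n) + 2 * μ) * c n ^ 2 with hSg
  have hSg0 : 0 ≤ Sg := by
    rw [hSg]
    apply Finset.sum_nonneg
    intro n _
    have := h464_sq_nonneg n
    positivity
  set I := ∫ y, W y * (1 - wf B0 c y) ^ 2 with hI
  have hI0 : 0 ≤ I := by
    rw [hI]
    apply integral_nonneg
    intro y
    exact mul_nonneg (hW.nonneg y) (sq_nonneg _)
  have hQ : gh W B0 c 0 = I + Sg := scat_Q hW hc
  have hΓ0 : 0 ≤ Γ := by rw [hΓ, hQ]; linarith
  have hI2 : gh W B0 c 0 - 1 / 2 * I = Γ / 2 := by rw [hΓ]; linarith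
  -- kinetic
  have hkin : kinF B a q = ∑ n ∈ B0, q * sq n * o n := t5_kin B0 hB0.zero a q
  -- potential
  have hpot := pot_ge hW hB0 c a
  rw [← hI, Finset.sum_insert hB0.zero, ← hB] at hpot
  -- zero mode
  have hz := pairS_zero_ge B a
  have herase : B.erase 0 = B0 := Finset.erase_insert hB0.zero
  rw [herase] at hz
  -- pair modes
  have hpair : ∀ n ∈ B0, -(b n * Real.sqrt (o (-n) * (o n + S))) ≤
      gh W B0 c n * (pairS B a n).re := by
    intro n hn
    have hne : n ≠ 0 := fun h => hB0.zero (h ▸ hn)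
    have h1 := pairS_le B (Finset.mem_insert_self _ _) n (Finset.mem_insert_of_mem hn)
      (Finset.mem_insert_of_mem (hB0.neg n hn)) hne a
    have h2 : ‖pairS B a n‖ ≤ N * Real.sqrt (o (-n) * (o n + S)) := by
      have h3 : (N : ℝ) * Real.sqrt (o (-n) * (o n + S)) =
          Real.sqrt ((N : ℝ) ^ 2 * (o (-n) * (o n + S))) := by
        rw [Real.sqrt_mul (sq_nonneg _), Real.sqrt_sq (Nat.cast_nonneg _)]
      rw [h3]
      exact Real.le_sqrt_of_sq_le h1
    have h4 : |gh W B0 c n * (pairS B a n).re| ≤ b n * Real.sqrt (o (-n) * (o n + S)) := by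
      rw [abs_mul]
      calc |gh W B0 c n| * |(pairS B a n).re| ≤ |gh W B0 c n| *
            (N * Real.sqrt (o (-n) * (o n + S))) :=
            mul_le_mul_of_nonneg_left ((Complex.abs_re_le_norm _).trans h2) (abs_nonneg _)
        _ = b n * Real.sqrt (o (-n) * (o n + S)) := by rw [hb]; ring
    exact (abs_le.mp h4).1
  have hmode := mode_sum hB0 A b o S hS0 hA hAs (fun n _ => hb0 n)
    (fun n _ => by rw [hb]; simp only [h464_gh_neg]) hAg (fun n _ => ho0 n)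
  have hsum : ∑ n ∈ B0, (A n * o n - b n * Real.sqrt (o (-n) * (o n + S))) ≤
      ∑ n ∈ B0, ((q * sq n + L n - Γ * N) * o n + gh W B0 c n * (pairS B a n).re) := by
    apply Finset.sum_le_sum
    intro n hn
    have h1 := mul_le_mul_of_nonneg_right (hAL n hn) (ho0 n)
    have h2 := hpair n hn
    linarith
  have hsplit : ∑ n ∈ B0, ((q * sq n + L n - Γ * N) * o n + gh W B0 c n * (pairS B a n).re) =
      ∑ n ∈ B0, q * sq n * o n + ∑ n ∈ B0, L n * o n - Γ * N * ∑ n ∈ B0, o n +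
        ∑ n ∈ B0, gh W B0 c n * (pairS B a n).re := by
    rw [Finset.mul_sum, ← Finset.sum_add_distrib, ← Finset.sum_sub_distrib,
      ← Finset.sum_add_distrib]
    apply Finset.sum_congr rfl
    intro n _
    ring
  have hzero : Γ / 2 * ((N : ℝ) * (N - 1) * S) - Γ * N * ∑ n ∈ B0, o n ≤
      Γ / 2 * (pairS B a 0).re := by
    have h1 := mul_le_mul_of_nonneg_left hz (by linarith : 0 ≤ Γ / 2)
    have h2 : 0 ≤ Γ * ∑ n ∈ B0, o n := mul_nonneg hΓ0 (Finset.sum_nonneg fun n _ => ho0 n)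
    have h3 : Γ / 2 * ((N : ℝ) * (N - 1) * nrm B a - 2 * (N - 1) * ∑ n ∈ B0, occ B a n) =
      Γ / 2 * ((N : ℝ) * (N - 1) * S) - Γ * N * ∑ n ∈ B0, o n + Γ * ∑ n ∈ B0, o n := by
      rw [hS]; ring
    rw [h3] at h1
    linarith
  have hfin : gh W B0 c 0 * (pairS B a 0).re - 1 / 2 * I * (pairS B a 0).re =
      Γ / 2 * (pairS B a 0).re := by rw [← hI2]; ring
  have hgoal : S * ((1 / 2) * Γ * ((N : ℝ) ^ 2 - N) -
      ∑ n ∈ B0, (b n ^ 2 / (4 * A n)) * (1 + (b n / A n) ^ 2)) =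
      Γ / 2 * ((N : ℝ) * (N - 1) * S) +
      -(S * ∑ n ∈ B0, (b n ^ 2 / (4 * A n)) * (1 + (b n / A n) ^ 2)) := by ring
  rw [hkin]
  calc _ = S * ((1 / 2) * Γ * ((N : ℝ) ^ 2 - N) -
      ∑ n ∈ B0, (b n ^ 2 / (4 * A n)) * (1 + (b n / A n) ^ 2)) := rfl
    _ ≤ _ := by
      rw [hgoal]
      have := hmode.trans (hsum.trans (le_of_eq hsplit))
      linarith

end

end Pool.Agent.H751R2.LHY
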